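import Pool.Agent.helper58.CRO.SpecI

/-!
# cro:IME: measurability
-/

open scoped Manifold ContDiff Topology ENNReal
open MeasureTheory Set

noncomputable section

namespace Pool.Agent.CRO

variable {n : ℕ} {r0 : ℝ}

theorem IME_stay_iff (Φ : ℝ → PS n → PS n) (R : ℝ) (z : PS n) (u : ℝ) :
    Stay Φ R z u ↔ ∀ τ : Icc (0 : ℝ) 1, ‖(Φ ((τ : ℝ) * u) z).1‖ < R := by
  constructor
  · rintro h ⟨τ, h0, h1⟩
    apply h
    rw [mem_uIcc]
    rcases le_total 0 u with hu | hu
    · left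
      exact ⟨mul_nonneg h0 hu, by nlinarith⟩
    · right
      exact ⟨by nlinarith, mul_nonpos_of_nonneg_of_nonpos h0 hu⟩
  · intro h s hs
    rcases eq_or_ne u 0 with rfl | hu
    · rw [uIcc_self, mem_singleton_iff] at hs
      have := h ⟨0, by norm_num, by norm_num⟩
      rw [hs]
      simpa using this
    · have h2 : s / u ∈ Icc (0 : ℝ) 1 := by
        rw [mem_uIcc] at hs
        rcases hs with ⟨h0, h1⟩ | ⟨h0, h1⟩
        · have hu' : 0 < u := lt_of_le_of_ne (h0.trans h1) (Ne.symm hu)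
          exact ⟨div_nonneg h0 hu'.le, (div_le_one hu').2 h1⟩
        · have hu' : u < 0 := lt_of_le_of_ne (h0.trans h1) hu
          exact ⟨div_nonneg_of_nonpos h1 hu'.le, (div_le_one_of_neg hu').2 h0⟩
      have := h ⟨s / u, h2⟩
      rw [div_mul_cancel₀ s hu] at this
      exact this

theorem IME_open (Φ : ℝ → PS n → PS n) (hc : Continuous fun q : ℝ × PS n => Φ q.1 q.2) (R : ℝ) :
    IsOpen {q : PS n × ℝ | Stay Φ R q.1 q.2} := by
  have hf : Continuous fun p : Icc (0 : ℝ) 1 × (PS n × ℝ) =>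
      ‖(Φ ((p.1 : ℝ) * p.2.2) p.2.1).1‖ := by
    have h1 : Continuous fun p : Icc (0 : ℝ) 1 × (PS n × ℝ) => (((p.1 : ℝ) * p.2.2), p.2.1) := by
      fun_prop
    exact (continuous_fst.comp (hc.comp h1)).norm
  have hcl : IsClosed {p : Icc (0 : ℝ) 1 × (PS n × ℝ) | R ≤ ‖(Φ ((p.1 : ℝ) * p.2.2) p.2.1).1‖} :=
    isClosed_le continuous_const hf
  have hcl2 := (isClosedMap_snd_of_compactSpace (X := Icc (0 : ℝ) 1) (Y := PS n × ℝ)) _ hcl
  have h3 : {q : PS n × ℝ | Stay Φ R q.1 q.2} =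
      (Prod.snd '' {p : Icc (0 : ℝ) 1 × (PS n × ℝ) | R ≤ ‖(Φ ((p.1 : ℝ) * p.2.2) p.2.1).1‖})ᶜ := by
    ext q
    rw [mem_compl_iff, mem_image, mem_ofPred_eq, IME_stay_iff]
    constructor
    · rintro h ⟨⟨τ, q'⟩, h1, rfl⟩
      exact absurd (h τ) (not_lt.2 h1)
    · intro h τ
      by_contra h1
      exact h ⟨(τ, q), not_lt.1 h1, rfl⟩
  rw [h3]
  exact hcl2.isOpen_compl

theorem IME_indic {X : Type} [TopologicalSpace X] [MeasurableSpace X] [BorelSpace X] (S : Set X)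
    (hS : IsOpen S) (f : X → ℝ) (hf : ContinuousOn f S) : Measurable (S.indicator f) := by
  classical
  have h := ContinuousOn.measurable_piecewise (g := fun _ => (0 : ℝ)) hf continuousOn_const
    hS.measurableSet
  have e : S.indicator f = S.piecewise f (fun _ => (0 : ℝ)) := by
    ext x
    by_cases hx : x ∈ S
    · rw [indicator_of_mem hx, piecewise_eq_of_mem _ _ _ hx]
    · rw [indicator_of_notMem hx, piecewise_eq_of_notMem _ _ _ hx]
  rw [e]
  exact h

theorem IME_Gcont (𝒢 : NChart n r0) : ContinuousOn 𝒢.G (Metric.ball 0 r0) :=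
  𝒢.smooth.continuousOn

theorem IME_nrm2 (𝒢 : NChart n r0) : ContinuousOn (nrm2 𝒢) {z : PS n | ‖z.1‖ < r0} := by
  have h1 : ContinuousOn (fun z : PS n => 𝒢.G z.1) {z : PS n | ‖z.1‖ < r0} := by
    refine (IME_Gcont 𝒢).comp continuous_fst.continuousOn ?_
    intro z hz
    rw [mem_ball_zero_iff]
    exact hz
  have h2 : ContinuousOn (fun z : PS n => 𝒢.G z.1 z.2) {z : PS n | ‖z.1‖ < r0} :=
    h1.clm_apply continuous_snd.continuousOn
  exact h2.inner continuous_snd.continuousOn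

theorem IME_sp (𝒢 : NChart n r0) : ContinuousOn (sp 𝒢) {z : PS n | ‖z.1‖ < r0} :=
  Real.continuous_sqrt.comp_continuousOn (IME_nrm2 𝒢)

theorem IME_SL (𝒢 : NChart n r0) (e R : ℝ) (hR : R < r0) : IsOpen (SL 𝒢 e R) := by
  have hU : IsOpen {z : PS n | ‖z.1‖ < r0} := isOpen_lt continuous_fst.norm continuous_const
  have h1 : IsOpen ({z : PS n | ‖z.1‖ < r0} ∩ sp 𝒢 ⁻¹' Ioo e 1) :=
    (IME_sp 𝒢).isOpen_inter_preimage hU isOpen_Ioo
  have h2 : SL 𝒢 e R = {z : PS n | ‖z.1‖ < R} ∩ ({z : PS n | ‖z.1‖ < r0} ∩ sp 𝒢 ⁻¹' Ioo e 1) := by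
    ext z
    constructor
    · rintro ⟨h3, h4, h5⟩
      exact ⟨h3, h3.trans hR, h4, h5⟩
    · rintro ⟨h3, _, h4, h5⟩
      exact ⟨h3, h4, h5⟩
  rw [h2]
  exact (isOpen_lt continuous_fst.norm continuous_const).inter h1

theorem IME (h1 : IWN_stmt) : IME_stmt := by
  have _ := h1
  intro n r0 𝒢 L R e r1 H Φ hstd
  have hc : Continuous fun q : ℝ × PS n => Φ q.1 q.2 := hstd.fl.cont
  have hdc : Continuous fun q : ℝ × PS n => fderiv ℝ (Φ q.1) q.2 := hstd.fl.dcont
  have hRr : R < r0 := hstd.Rr.trans hstd.fl.r1lt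
  have hopen := IME_open Φ hc R
  have hSL := IME_SL 𝒢 e R hRr
  have hSLsub : SL 𝒢 e R ⊆ {z : PS n | ‖z.1‖ < r0} := fun z hz => lt_trans hz.1 hRr
  have hsp : Measurable ((SL 𝒢 e R).indicator (sp 𝒢)) :=
    IME_indic _ hSL _ ((IME_sp 𝒢).mono hSLsub)
  have hcs : Continuous fun q : PS n × ℝ => Φ q.2 q.1 := hc.comp continuous_swap
  refine ⟨hopen, hSL, hsp, ?_, ?_, ?_, ?_⟩
  · have h2 : (SL 𝒢 e R).indicator (rc 𝒢) = (SL 𝒢 e R).indicator
        (fun z => inner ℝ z.1 z.2 / (‖z.1‖ * (SL 𝒢 e R).indicator (sp 𝒢) z)) := by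
      ext z
      by_cases hz : z ∈ SL 𝒢 e R
      · rw [indicator_of_mem hz, indicator_of_mem hz, indicator_of_mem hz]
        rfl
      · rw [indicator_of_notMem hz, indicator_of_notMem hz]
    rw [h2]
    refine Measurable.indicator ?_ hSL.measurableSet
    have h3 : Measurable fun z : PS n => (inner ℝ z.1 z.2 : ℝ) :=
      (continuous_fst.inner continuous_snd).measurable
    have h4 : Measurable fun z : PS n => ‖z.1‖ := continuous_fst.norm.measurable
    exact h3.div (h4.mul hsp)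
  · intro ρ
    have h2 : IsOpen {q : PS n × ℝ | Stay Φ R q.1 q.2 ∧ ‖(Φ q.2 q.1).1‖ < ρ} :=
      hopen.inter (isOpen_lt (continuous_fst.comp hcs).norm continuous_const)
    have h3 := isOpenMap_fst _ h2
    have h4 : Hit Φ R ρ = Prod.fst '' {q : PS n × ℝ | Stay Φ R q.1 q.2 ∧ ‖(Φ q.2 q.1).1‖ < ρ} := by
      ext z
      constructor
      · rintro ⟨u, hu, hu'⟩
        exact ⟨(z, u), ⟨hu, hu'⟩, rfl⟩
      · rintro ⟨⟨z', u⟩, ⟨hu, hu'⟩, rfl⟩
        exact ⟨u, hu, hu'⟩
    rw [h4]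
    exact h3
  · intro θ hθ
    have h2 : Measurable (({q : PS n × ℝ | Stay Φ R q.1 q.2}).indicator
        (fun q : PS n × ℝ => ENNReal.ofReal (θ (Φ q.2 q.1).1))) := by
      refine Measurable.indicator ?_ hopen.measurableSet
      exact (hθ.comp (measurable_fst.comp hcs.measurable)).ennreal_ofReal
    have h3 := h2.lintegral_prod_right'
      (ν := (volume : Measure ℝ))
    have h4 : TT Φ R θ = fun z => ∫⁻ u, ({q : PS n × ℝ | Stay Φ R q.1 q.2}).indicator
        (fun q : PS n × ℝ => ENNReal.ofReal (θ (Φ q.2 q.1).1)) (z, u) := by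
      ext z
      have h5 : MeasurableSet {u : ℝ | Stay Φ R z u} := by
        have h6 : IsOpen ((fun u : ℝ => (z, u)) ⁻¹' {q : PS n × ℝ | Stay Φ R q.1 q.2}) :=
          hopen.preimage (by fun_prop)
        exact h6.measurableSet
      unfold TT
      rw [← lintegral_indicator h5]
      refine lintegral_congr fun u => ?_
      by_cases hu : Stay Φ R z u
      · rw [indicator_of_mem (show u ∈ {u : ℝ | Stay Φ R z u} from hu),
          indicator_of_mem (show (z, u) ∈ {q : PS n × ℝ | Stay Φ R q.1 q.2} from hu)]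
      · rw [indicator_of_notMem (show u ∉ {u : ℝ | Stay Φ R z u} from hu),
          indicator_of_notMem (show (z, u) ∉ {q : PS n × ℝ | Stay Φ R q.1 q.2} from hu)]
    rw [h4]
    exact h3
  · have hS : IsOpen {q : PS n × ℝ | q.1 ∈ SL 𝒢 e R ∧ Stay Φ R q.1 q.2} :=
      (hSL.preimage continuous_fst).inter hopen
    have hnum : Continuous fun q : PS n × ℝ => |(BB Φ q.2 q.1).det| := by
      have h2 : Continuous fun q : PS n × ℝ => fderiv ℝ (Φ q.2) q.1 := hdc.comp continuous_swap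
      have h3 : Continuous fun q : PS n × ℝ => BB Φ q.2 q.1 := by
        unfold BB
        exact continuous_const.clm_comp (h2.clm_comp continuous_const)
      exact (ContinuousLinearMap.continuous_det.comp h3).abs
    have hG1 : ContinuousOn (fun q : PS n × ℝ => (𝒢.G q.1.1).det)
        {q : PS n × ℝ | q.1 ∈ SL 𝒢 e R ∧ Stay Φ R q.1 q.2} := by
      refine ContinuousLinearMap.continuous_det.comp_continuousOn ?_
      refine (IME_Gcont 𝒢).comp (continuous_fst.comp continuous_fst).continuousOn ?_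
      intro q hq
      rw [mem_ball_zero_iff]
      exact hSLsub hq.1
    have hG2 : ContinuousOn (fun q : PS n × ℝ => (𝒢.G (Φ q.2 q.1).1).det)
        {q : PS n × ℝ | q.1 ∈ SL 𝒢 e R ∧ Stay Φ R q.1 q.2} := by
      refine ContinuousLinearMap.continuous_det.comp_continuousOn ?_
      refine (IME_Gcont 𝒢).comp (continuous_fst.comp hcs).continuousOn ?_
      intro q hq
      rw [mem_ball_zero_iff]
      exact (hq.2 q.2 right_mem_uIcc).trans hRr
    have hden : Measurable ({q : PS n × ℝ | q.1 ∈ SL 𝒢 e R ∧ Stay Φ R q.1 q.2}.indicator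
        (fun q : PS n × ℝ => Real.sqrt ((𝒢.G q.1.1).det * (𝒢.G (Φ q.2 q.1).1).det))) :=
      IME_indic _ hS _ (Real.continuous_sqrt.comp_continuousOn (hG1.mul hG2))
    have h5 : {q : PS n × ℝ | q.1 ∈ SL 𝒢 e R ∧ Stay Φ R q.1 q.2}.indicator
        (fun q : PS n × ℝ => EE 𝒢 Φ q.1 q.2) =
        {q : PS n × ℝ | q.1 ∈ SL 𝒢 e R ∧ Stay Φ R q.1 q.2}.indicator
        (fun q : PS n × ℝ => |(BB Φ q.2 q.1).det| /
          {q : PS n × ℝ | q.1 ∈ SL 𝒢 e R ∧ Stay Φ R q.1 q.2}.indicator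
          (fun q : PS n × ℝ => Real.sqrt ((𝒢.G q.1.1).det * (𝒢.G (Φ q.2 q.1).1).det)) q) := by
      ext q
      by_cases hq : q ∈ {q : PS n × ℝ | q.1 ∈ SL 𝒢 e R ∧ Stay Φ R q.1 q.2}
      · rw [indicator_of_mem hq, indicator_of_mem hq, indicator_of_mem hq]
        rfl
      · rw [indicator_of_notMem hq, indicator_of_notMem hq]
    rw [h5]
    exact (hnum.measurable.div hden).indicator hS.measurableSet

end Pool.Agent.CRO
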