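import Pool.Agent.helper58.CRO.SpecG

/-!
# cro:GDE: distances from the centre of a normal chart
-/

open scoped Manifold ContDiff Topology ENNReal
open MeasureTheory Set Bundle Filter

noncomputable section

namespace Pool.Agent.CRO

universe u

theorem GDE (h1 : GDP_stmt.{u}) : GDE_stmt.{u} := by
  intro n M _ _ _ _ g χ x r hr hχ q hq
  have hP := h1 n M g χ x r hr hχ
  obtain ⟨hmem, htar, hxs, hx0, hin, hgeo⟩ := hχ
  let _ : Bundle.RiemannianBundle (fun x : M => TangentSpace (𝓡 n) x) := ⟨g.toRiemannianMetric⟩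
  by_contra hcon
  rw [not_le] at hcon
  have hcon' : Manifold.riemannianEDist (𝓡 n) x (χ.symm q) < ENNReal.ofReal ‖q‖ := hcon
  obtain ⟨γ, hγ0, hγ1, hγs, hγl, -, -⟩ :=
    Manifold.exists_lt_locally_constant_of_riemannianEDist_lt hcon' (zero_lt_one (α := ℝ))
  have hqt : q ∈ χ.target := by
    rw [htar, mem_ball_zero_iff]
    exact hq
  have hγc : Continuous γ := hγs.continuous
  by_cases hall : ∀ t ∈ Icc (0 : ℝ) 1, γ t ∈ χ.source
  · have h2 := hP γ 0 1 zero_le_one hγs hall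
    rw [hγ0, hγ1, χ.right_inv hqt, hx0, norm_zero, sub_zero] at h2
    exact absurd (lt_of_le_of_lt h2 hγl) (lt_irrefl _)
  · push Not at hall
    obtain ⟨t0, ht0, ht0s⟩ := hall
    obtain ⟨ρ, hρ1, hρ2⟩ := exists_between hq
    have hρ0 : 0 < ρ := lt_of_le_of_lt (norm_nonneg q) hρ1
    have hsub : Metric.closedBall (0 : En n) ρ ⊆ χ.target := by
      rw [htar]
      exact Metric.closedBall_subset_ball hρ2
    have hK : IsClosed (χ.symm '' Metric.closedBall (0 : En n) ρ) :=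
      ((isCompact_closedBall (0 : En n) ρ).image_of_continuousOn
        (χ.continuousOn_symm.mono hsub)).isClosed
    have hU : IsOpen (χ.symm '' Metric.ball (0 : En n) ρ) :=
      χ.isOpen_image_symm_of_subset_target Metric.isOpen_ball
        (Metric.ball_subset_closedBall.trans hsub)
    have hS : IsClosed {t : ℝ | t ∈ Icc (0 : ℝ) 1 ∧ γ t ∉ χ.symm '' Metric.ball (0 : En n) ρ} :=
      isClosed_Icc.inter (hU.isClosed_compl.preimage hγc)
    have hSb : BddBelow {t : ℝ | t ∈ Icc (0 : ℝ) 1 ∧ γ t ∉ χ.symm '' Metric.ball (0 : En n) ρ} :=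
      ⟨0, fun t ht => ht.1.1⟩
    have hSn : {t : ℝ | t ∈ Icc (0 : ℝ) 1 ∧
        γ t ∉ χ.symm '' Metric.ball (0 : En n) ρ}.Nonempty := by
      refine ⟨t0, ht0, ?_⟩
      rintro ⟨y, hy, hy'⟩
      apply ht0s
      rw [← hy']
      exact χ.map_target (hsub (Metric.ball_subset_closedBall hy))
    have ht1 := hS.csInf_mem hSn hSb
    set t1 := sInf {t : ℝ | t ∈ Icc (0 : ℝ) 1 ∧
      γ t ∉ χ.symm '' Metric.ball (0 : En n) ρ} with ht1def
    have hlt : ∀ t ∈ Ico (0 : ℝ) t1, γ t ∈ χ.symm '' Metric.ball (0 : En n) ρ := by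
      intro t ht
      by_contra hn
      have h3 : t1 ≤ t := csInf_le hSb ⟨⟨ht.1, ht.2.le.trans ht1.1.2⟩, hn⟩
      exact absurd ht.2 (not_lt.2 h3)
    have hxU : x ∈ χ.symm '' Metric.ball (0 : En n) ρ := by
      refine ⟨0, Metric.mem_ball_self hρ0, ?_⟩
      rw [← hx0]
      exact χ.left_inv hxs
    have ht1pos : 0 < t1 := by
      rcases lt_or_eq_of_le ht1.1.1 with h | h
      · exact h
      · exfalso
        apply ht1.2
        rw [← h, hγ0]
        exact hxU
    have hclos : γ t1 ∈ χ.symm '' Metric.closedBall (0 : En n) ρ := by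
      have h3 : t1 ∈ closure (Ico 0 t1) := by
        rw [closure_Ico ht1pos.ne]
        exact ⟨ht1pos.le, le_rfl⟩
      have h4 : γ t1 ∈ closure (γ '' Ico 0 t1) := image_closure_subset_closure_image hγc ⟨t1, h3, rfl⟩
      refine closure_minimal ?_ hK h4
      rintro _ ⟨t, ht, rfl⟩
      obtain ⟨y, hy, hy'⟩ := hlt t ht
      exact ⟨y, Metric.ball_subset_closedBall hy, hy'⟩
    obtain ⟨y, hy, hy'⟩ := hclos
    have hyn : ‖y‖ = ρ := by
      apply le_antisymm (mem_closedBall_zero_iff.1 hy)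
      by_contra hn
      rw [not_le] at hn
      exact ht1.2 ⟨y, mem_ball_zero_iff.2 hn, hy'⟩
    have hsrc : ∀ t ∈ Icc (0 : ℝ) t1, γ t ∈ χ.source := by
      intro t ht
      rcases lt_or_eq_of_le ht.2 with h | h
      · obtain ⟨z, hz, hz'⟩ := hlt t ⟨ht.1, h⟩
        rw [← hz']
        exact χ.map_target (hsub (Metric.ball_subset_closedBall hz))
      · rw [h, ← hy']
        exact χ.map_target (hsub hy)
    have h2 := hP γ 0 t1 ht1pos.le hγs hsrc
    rw [hγ0, hx0, norm_zero, sub_zero, ← hy', χ.right_inv (hsub hy), hyn] at h2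
    have h5 := Manifold.pathELength_mono (I := 𝓡 n) (γ := γ) (le_refl (0 : ℝ)) ht1.1.2
    have h6 : ENNReal.ofReal ρ < ENNReal.ofReal ‖q‖ :=
      lt_of_le_of_lt (h2.trans h5) hγl
    have h7 : ENNReal.ofReal ‖q‖ ≤ ENNReal.ofReal ρ := ENNReal.ofReal_le_ofReal hρ1.le
    exact absurd h6 (not_lt.2 h7)

end Pool.Agent.CRO
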