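import Pool.Agent.helper58.CRO.SpecG

/-!
# cro:GTR: the distance is symmetric and satisfies the triangle inequality
-/

open scoped Manifold ContDiff Topology ENNReal
open MeasureTheory Set Bundle Filter

noncomputable section

namespace Pool.Agent.CRO

universe u

theorem GTR : GTR_stmt.{u} := by
  intro n M _ _ _ g x y z
  let _ : Bundle.RiemannianBundle (fun x : M => TangentSpace (𝓡 n) x) := ⟨g.toRiemannianMetric⟩
  constructor
  · exact Manifold.riemannianEDist_comm (I := 𝓡 n) (x := x) (y := y)
  · exact Manifold.riemannianEDist_triangle (I := 𝓡 n) (x := x) (y := y) (z := z)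

end Pool.Agent.CRO
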